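import Pool.Agent.Q143.KF.Final
import Pool.Agent.Q143.RSP.Final

/-!
# The `k`-fold sum-product inequality is false for finite sets of real numbers, for every `k ≥ 2`

Let `L` be a totally real number field of degree `d` with bounded root discriminant (there are such
fields of arbitrarily large degree, by class field towers).

* Let `A` be the set of the integers `x` of `L` with `|x|_w ≤ Y 9 ^ M` for all places `w` and
  `|N x| ≤ Y ^ d`, `Y = 9 ^ M`, where `M` is a large constant. By Blichfeldt's theorem in the boxes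
  `|x|_w ≤ Y 9 ^ (e_w)`, `∑ e_w = 0`, and Cauchy–Schwarz, `|A| ≥ (c M Y) ^ d`; and
  `|kA| ≤ (3 k Y 9 ^ M) ^ d`, `|A ^ k| ≤ (C k M Y ^ k) ^ d` by counting integers in boxes. So there is
  an absolute constant `δ > 0` such that `|kA|` and `|A ^ k|` are at most `|A| ^ (k - δ (k - 1))` for
  all `k ≥ 2`, with one and the same set `A`, arbitrarily large. The inequality of the problem fails
  for sets of positive reals for every `k ≥ 2`.
* For large `k` sets of units (`Y` bounded, `M` about `log k`) are better: `|kA|` and `|A ^ k|` are at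
  most `|A| ^ (C log k / log log k)`.
-/

set_option autoImplicit false

namespace Pool.Agent.Results.MP_120218_co.FalseForRealsEveryK

open NumberField Module Q143.KF

theorem result :
    (∃ δ : ℝ, 0 < δ ∧ δ ≤ 1 ∧ ∀ N : ℕ,
      ∃ (L : Type) (_ : Field L) (_ : NumberField L) (φ : L →+* ℝ) (A : Finset ℝ),
        IsTotallyReal L ∧ N ≤ A.card ∧ (∀ x ∈ A, 0 < x ∧ ∃ y : 𝓞 L, φ (y : L) = x) ∧
        ∀ k : ℕ, 2 ≤ k →
          max ((sums A k).card : ℝ) ((prods A k).card : ℝ) ≤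
            (A.card : ℝ) ^ ((k : ℝ) - δ * ((k : ℝ) - 1))) ∧
    (∀ k : ℕ, 2 ≤ k → ∃ ε : ℝ, 0 < ε ∧ ∀ c : ℝ, 0 < c →
      ∃ A : Finset ℝ, A.Nonempty ∧ (∀ x ∈ A, 0 < x) ∧
        max ((sums A k).card : ℝ) ((prods A k).card : ℝ) < c * (A.card : ℝ) ^ ((k : ℝ) - ε)) ∧
    (∃ C : ℝ, 1 ≤ C ∧ ∀ b : ℕ, 2 ≤ b → ∀ N : ℕ,
      ∃ (L : Type) (_ : Field L) (_ : NumberField L) (φ : L →+* ℝ) (A : Finset ℝ),
        IsTotallyReal L ∧ N ≤ finrank ℚ L ∧ (b : ℝ) ^ finrank ℚ L ≤ A.card ∧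
        (∀ x ∈ A, 0 < x ∧ ∃ u : (𝓞 L)ˣ, φ ((u : 𝓞 L) : L) = x) ∧
        ∀ k : ℕ, 1 ≤ k →
          ((sums A k).card : ℝ) ≤ (A.card : ℝ) ^ ((Real.log k + C * b) / Real.log b) ∧
          ((prods A k).card : ℝ) ≤ (A.card : ℝ) ^ (1 + (Real.log k + C) / Real.log b)) ∧
    (∃ C : ℝ, 1 ≤ C ∧ ∀ k : ℕ, 16 ≤ k → ∀ N : ℕ, ∃ A : Finset ℝ, N ≤ A.card ∧
      (∀ x ∈ A, 0 < x) ∧
      max ((sums A k).card : ℝ) ((prods A k).card : ℝ) ≤
        (A.card : ℝ) ^ (C * Real.log k / Real.log (Real.log k))) ∧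
    ¬ ∃ c : ℝ, 0 < c ∧ ∀ A : Finset ℝ, A.Nonempty → ∀ m : ℕ, 2 ≤ m →
      (m : ℝ) ≤ Real.log A.card → ∀ k : ℕ, 2 ≤ k →
        (A.card : ℝ) ^ (c * Real.log k) ≤ ((prods A k).card : ℝ) ∨
        (A.card : ℝ) ^ (1 + c * Real.log m) ≤ ((sums A m).card : ℝ) :=
  ⟨Q143.RSP.kfold, Q143.RSP.fails_every_k, unit_sets_real, fixed_k, log_dichotomy_fails⟩

end Pool.Agent.Results.MP_120218_co.FalseForRealsEveryK
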