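import Mathlib
import Pool.Agent.Q137.KF.Progressions
import Pool.Agent.Q137.KF.Sharp

/-!
# The k-fold conjecture for sets covered by few short progressions

(1) Let `A` be a finite set of nonzero integers that is covered by at most `exp (- 21 m / ε) |A|`
classes, any two different elements of a class having greatest common divisor at most `H`. Then
`|A ^ m C| ≥ c H ^ (- η) (|A| ^ m |C|) ^ (1 - ε)` for EVERY finite set `C` of nonzero integers, with
`c = c (m, ε, η)`.

(2) The `k`-fold Erdős–Szemerédi conjecture, already with the product set alone, for all sets `A`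
that are covered by at most `exp (- 44 k ^ 2 / ε) |A|` arithmetic progressions of length `|A| ^ D`,
with arbitrary first terms and arbitrary (different) differences such that the greatest common
divisor of the first term and the difference is at most `|A| ^ D`: `|A ^ k| ≥ c |A| ^ (k - ε)`.
In particular for all sets covered by at most `exp (- 44 k ^ 2 / ε) |A|` intervals of length
`|A| ^ D`, whatever the positions of the intervals. The proportion does not depend on `D`.

(3) (1) is sharp up to the constant in the exponent: there are sets `A` of `L ^ (s + 1)` nonzero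
integers, covered by at most `|A| / L` classes of pairwise coprime integers, such that
`|A ^ k| ≤ |A| ^ (k - log (4 / 3) / log L)`.

Proof of (1). If a prime power `q` divides at least `3 θ |A|` elements of `A`, then it divides many
pairs of elements of the same class; the sum of `Λ(q)` over all `q` dividing a pair is at most
`log H`. So the popular prime powers have a least common multiple `Q ≤ H ^ (1 / θ ^ 2)`, and
elements are seldom divisible by a prime power that does not divide `Q`. The valuations are exposed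
prime by prime (entropy); the loss is a power of the number of divisors of `Q`.
-/

set_option autoImplicit false

namespace Pool.Agent.Results.MP_120218_co.FewProgressions

open scoped Pointwise

/-- **Sets covered by few classes with small greatest common divisors, or by few short
progressions, have many `k`-fold products.** -/
theorem result :
    (∀ m : ℕ, 1 ≤ m → ∀ ε : ℝ, 0 < ε → ε ≤ 1 → ∀ η : ℝ, 0 < η → ∃ c : ℝ, 0 < c ∧
      ∀ H : ℕ, 1 ≤ H → ∀ A C : Finset ℤ, A.Nonempty → C.Nonempty → (0 : ℤ) ∉ A → (0 : ℤ) ∉ C →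
      ∀ 𝒮 : Finset (Finset ℤ), (∀ a ∈ A, ∃ S ∈ 𝒮, a ∈ S) →
      (∀ S ∈ 𝒮, ∀ a ∈ S, ∀ b ∈ S, a ≠ b → Int.gcd a b ≤ H) →
      (𝒮.card : ℝ) ≤ Real.exp (-(21 * m / ε)) * A.card →
      c * (H : ℝ) ^ (-η) * ((A.card : ℝ) ^ m * C.card) ^ (1 - ε) ≤ ((A ^ m * C).card : ℝ)) ∧
    (∀ k : ℕ, 2 ≤ k → ∀ ε : ℝ, 0 < ε → ε ≤ 1 → ∀ D : ℕ, ∃ c : ℝ, 0 < c ∧
      ∀ A : Finset ℤ, ∀ T : Finset (ℤ × ℤ),
      (∀ z ∈ T, z.2 ≠ 0 ∧ Int.gcd z.1 z.2 ≤ A.card ^ D) →
      (∀ a ∈ A, ∃ z ∈ T, ∃ j : ℕ, j ≤ A.card ^ D ∧ a = z.1 + z.2 * j) →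
      (T.card : ℝ) ≤ Real.exp (-(44 * k ^ 2 / ε)) * A.card →
      c * (A.card : ℝ) ^ (k - ε) ≤ ((A ^ k).card : ℝ)) ∧
    (∀ k L s : ℕ, 2 ≤ k → 2 ≤ L → ∃ (A : Finset ℤ) (𝒮 : Finset (Finset ℤ)),
      A.card = L ^ (s + 1) ∧ (0 : ℤ) ∉ A ∧ (∀ a ∈ A, ∃ S ∈ 𝒮, a ∈ S) ∧
      (∀ S ∈ 𝒮, ∀ a ∈ S, ∀ b ∈ S, a ≠ b → Int.gcd a b = 1) ∧ L * 𝒮.card ≤ A.card ∧
      ((A ^ k).card : ℝ) ≤ (A.card : ℝ) ^ ((k : ℝ) - Real.log (4 / 3) / Real.log L)) := by
  refine ⟨?_, ?_, ?_⟩
  · intro m hm ε hε hε1 η hη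
    obtain ⟨c, hc0, hc⟩ := Q137.KF.classes_cover m hm ε hε hε1 η hη
    refine ⟨c, hc0, fun H hH A C hA hC hA0 hC0 𝒮 hcov hgcd hcard => ?_⟩
    exact hc H hH A C hA hC hA0 hC0 𝒮
      (fun a ha => Finset.mem_biUnion.2 (hcov a ha)) hgcd hcard
  · intro k hk ε hε hε1 D
    exact Q137.KF.progressions k hk ε hε hε1 D
  · intro k L s hk hL
    obtain ⟨A, 𝒮, h1, h2, h3, h4, h5, h6⟩ := Q137.KF.sharp k L s hk hL
    exact ⟨A, 𝒮, h1, h2, fun a ha => Finset.mem_biUnion.1 (h3 ha), h4, h5, h6⟩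

end Pool.Agent.Results.MP_120218_co.FewProgressions
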