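import Mathlib
import Pool.Agent.Q137.KF.NoPop

/-!
# The `k`-fold Erdős–Szemerédi conjecture: products of translates of arbitrary sets

Let `k = m + 1 ≥ 2` and `0 < ε ≤ 1`. All sets are finite nonempty sets of integers, `t +ᵥ A` is the
translate of `A` by `t`, and `A ^ k` is the set of the products of `k` elements of `A`.

1. Let `A_0, …, A_m` be arbitrary (`A_0 ≠ {0}`) and let `T` be a set of shifts in `[-M, M]`. Then
   `|A_0 (A_1 + t_1) ⋯ (A_m + t_m)| ≥ c M ^ (-ε) (∏ |A_i|) ^ (1 - ε)` for all of the `|T| ^ m`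
   tuples of shifts `t` with at most `m exp (22 m / ε) |T| ^ (m - 1)` exceptions; `c` depends on `m`
   and `ε` only.
2. The `k`-fold conjecture, by the product set alone, for unions of `k` translates of an arbitrary
   set `B`: the set `C = B ∪ (B + t_1) ∪ ⋯ ∪ (B + t_m)` satisfies
   `|C ^ k| ≥ c M ^ (-ε) |C| ^ (k - ε)` for all `t` with at most
   `m exp (22 m (m + 1) / ε) |T| ^ (m - 1)` exceptions.
3. The `k`-fold conjecture for sets with a pattern: if `T` is any set of more than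
   `m exp (22 m (m + 1) / ε)` integers, all unions `A` of translates of `T` (for instance `A = B + T`
   for an arbitrary `B`) satisfy `|A ^ k| ≥ c |A| ^ (k - ε)`, where `c > 0` depends on `m`, `ε`, `T`.
4. The same with one arbitrary factor: if `A_1, …, A_m` are subsets of `B_i + T` with at least
   `η |B_i| |T|` elements and `|T| ≥ exp (9 m / ε) / η` then
   `|A_0 A_1 ⋯ A_m| ≥ c (∏ |A_i|) ^ (1 - ε)` for every `A_0`.
5. Uniformly in the length of blocks: if `A_1, …, A_m` fill a proportion `η` of the blocks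
   `[j M, (j + 1) M)` which they meet, on the average, for some `M ≥ M₀ (m, ε, η)`, then
   `|A_0 A_1 ⋯ A_m| ≥ c (∏ |A_i|) ^ (1 - ε)` for every `A_0`, with `c = c (m, ε, η)`.
6. A prime `p` is `L`-popular for `A` if for every `e` the exponent of `p` is different from `e` for
   more than `|A| / L` elements of `A`. If no prime is `L`-popular for two of the `k` sets then
   `|A_0 A_1 ⋯ A_m| ≥ 4 ^ (-m) (∏ |A_i|) ^ (1 - 9 m / log (L / m))`.

Method. Let `y` be the product of independent uniformly distributed elements of the first sets and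
`x` a uniformly distributed element of the next one. The valuations of `x y` are exposed prime by
prime; given the past, the two valuations are independent, and if one of them is almost constant the
entropy of the sum is almost the sum of the entropies. For 1 the valuations are first exposed up to
the exponents in the product `Q` of the differences of a bounded number of shifts. Above them a
prime is popular for few of the sets `A_i + t`, so the losses, summed over the shifts, are bounded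
by a multiple of the entropy of `y`, which does not depend on the shift. Hence for given
`t_1, …, t_{i-1}` all but boundedly many `t_i` are good, and the entropy of the product is the
quantity that is carried from one factor to the next.
-/

set_option autoImplicit false

open scoped Pointwise

namespace Pool.Agent.Results.MP_120218_co.ProductsOfTranslates

theorem result :
    -- (1) products of translates of arbitrary sets
    (∀ m : ℕ, 1 ≤ m → ∀ ε : ℝ, 0 < ε → ε ≤ 1 → ∃ c : ℝ, 0 < c ∧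
      ∀ M : ℕ, 1 ≤ M → ∀ T : Finset ℤ, (∀ t ∈ T, |t| ≤ M) →
      ∀ A : Fin (m + 1) → Finset ℤ, (∃ a ∈ A 0, a ≠ 0) → (∀ i, (A i).Nonempty) →
      (((Fintype.piFinset fun _ : Fin m => T).filter fun t =>
        ((A 0 * ∏ i : Fin m, (t i +ᵥ A i.succ)).card : ℝ) <
          c * (M : ℝ) ^ (-ε) * (∏ i, ((A i).card : ℝ)) ^ (1 - ε)).card : ℝ) ≤
        m * Real.exp (22 * m / ε) * (T.card : ℝ) ^ (m - 1)) ∧
    -- (2) unions of `m + 1` translates of an arbitrary set
    (∀ m : ℕ, 1 ≤ m → ∀ ε : ℝ, 0 < ε → ε ≤ 1 → ∃ c : ℝ, 0 < c ∧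
      ∀ M : ℕ, 1 ≤ M → ∀ T : Finset ℤ, (∀ t ∈ T, |t| ≤ M) → ∀ B : Finset ℤ, B.Nonempty →
      (((Fintype.piFinset fun _ : Fin m => T).filter fun t =>
        (((B ∪ Finset.univ.biUnion fun i => t i +ᵥ B) ^ (m + 1)).card : ℝ) <
          c * (M : ℝ) ^ (-ε) *
            ((B ∪ Finset.univ.biUnion fun i => t i +ᵥ B).card : ℝ) ^
              ((m + 1 : ℕ) - ε : ℝ)).card : ℝ) ≤
        m * Real.exp (22 * m * (m + 1) / ε) * (T.card : ℝ) ^ (m - 1)) ∧
    -- (3) unions of translates of a large pattern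
    (∀ m : ℕ, 1 ≤ m → ∀ ε : ℝ, 0 < ε → ε ≤ 1 → ∀ T : Finset ℤ,
      m * Real.exp (22 * m * (m + 1) / ε) < T.card → ∃ c : ℝ, 0 < c ∧
      ∀ A : Finset ℤ, A.Nonempty →
      (∀ a ∈ A, ∃ x : ℤ, (∃ t ∈ T, a = x + t) ∧ ∀ t ∈ T, x + t ∈ A) →
      c * (A.card : ℝ) ^ ((m + 1 : ℕ) - ε : ℝ) ≤ (A ^ (m + 1)).card) ∧
    -- (4) one arbitrary set and `m` dense subsets of unions of translates of a large pattern
    (∀ m : ℕ, 1 ≤ m → ∀ ε η : ℝ, 0 < ε → ε ≤ 1 → 0 < η → ∀ T : Finset ℤ,
      Real.exp (9 * m / ε) / η ≤ T.card → ∃ c : ℝ, 0 < c ∧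
      ∀ A : Fin (m + 1) → Finset ℤ, (∀ i, (A i).Nonempty) → (∀ i, (0 : ℤ) ∉ A i) →
      (∀ i : Fin m, ∃ B : Finset ℤ, A i.succ ⊆ B + T ∧
        η * B.card * T.card ≤ (A i.succ).card) →
      c * (∏ i, ((A i).card : ℝ)) ^ (1 - ε) ≤ (∏ i, A i).card) ∧
    -- (5) one arbitrary set and `m` sets that are dense in blocks
    (∀ m : ℕ, 1 ≤ m → ∀ ε η : ℝ, 0 < ε → ε ≤ 1 → 0 < η → ∃ (M₀ : ℕ) (c : ℝ), 0 < c ∧
      ∀ M : ℕ, M₀ ≤ M →
      ∀ A : Fin (m + 1) → Finset ℤ, (∀ i, (A i).Nonempty) → (∀ i, (0 : ℤ) ∉ A i) →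
      (∀ i : Fin m, η * M * ((A i.succ).image fun a => a / (M : ℤ)).card ≤ (A i.succ).card) →
      c * (∏ i, ((A i).card : ℝ)) ^ (1 - ε) ≤ (∏ i, A i).card) ∧
    -- (6) no two of the sets share a popular prime
    (∀ m : ℕ, 1 ≤ m → ∀ L : ℝ, (m : ℝ) < L →
      ∀ A : Fin (m + 1) → Finset ℤ, (∀ i, (A i).Nonempty) → (∀ i, (0 : ℤ) ∉ A i) →
      (∀ p : ℕ, p.Prime → ∀ i j : Fin (m + 1), i ≠ j →
        (∃ e : ℕ, L * (((A i).filter fun a => a.natAbs.factorization p ≠ e).card : ℝ) ≤
          (A i).card) ∨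
        (∃ e : ℕ, L * (((A j).filter fun a => a.natAbs.factorization p ≠ e).card : ℝ) ≤
          (A j).card)) →
      (∏ i, ((A i).card : ℝ)) ^ (1 - 9 * m / Real.log (L / m)) ≤ 4 ^ m * (∏ i, A i).card) := by
  refine ⟨?_, ?_, ?_, ?_, ?_, ?_⟩
  · intro m hm ε hε hε1
    obtain ⟨c, hc, H⟩ := Q137.KF.shifts_k m hm ε hε hε1
    refine ⟨c, hc, fun M hM T hT A h0 hA => ?_⟩
    convert H M hM T hT A h0 hA using 3
  · intro m hm ε hε hε1
    obtain ⟨c, hc, H⟩ := Q137.KF.union_k m hm ε hε hε1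
    refine ⟨c, hc, fun M hM T hT B hB => ?_⟩
    convert H M hM T hT B hB using 3
  · intro m hm ε hε hε1 T hT
    exact Q137.KF.pattern_k m hm ε hε hε1 T hT
  · intro m hm ε η hε hε1 hη T hT
    exact Q137.KF.dense_k m hm ε η hε hε1 hη T hT
  · intro m hm ε η hε hε1 hη
    exact Q137.KF.blocks_k m hm ε η hε hε1 hη
  · intro m hm L hL A hA hA0 hpop
    refine Q137.KF.nopop_k m hm L hL A hA hA0 fun p hp i j hij => ?_
    rcases hpop p hp i j hij with ⟨e, he⟩ | ⟨e, he⟩
    · refine Or.inl ⟨e, ?_⟩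
      convert he using 5
      rfl
    · refine Or.inr ⟨e, ?_⟩
      convert he using 5
      rfl

end Pool.Agent.Results.MP_120218_co.ProductsOfTranslates
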