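import Mathlib
import Pool.Agent.Q163.SS.Lev

set_option autoImplicit false

/-!
# The `k`-fold Erdős–Szemerédi conjecture for sets of short sums of S-units

Let `P` be a finite set of primes and let `s` be a natural number. A rational number is short of
height `H` if it is a sum of `s` terms `c u`, where `c` is rational with numerator and denominator
at most `H` and `u = ± ∏_{p ∈ P} p ^ e_p` with arbitrary integral exponents (for instance
`5 * 2 ^ a * 3 ^ b - 7 ^ c + 2 ^ d * 11 ^ e`). There is a constant `C = C(P, s, k)` such that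

`|A_1 + ... + A_k| ≥ |A_1| ... |A_k| / (C H ^ C)`

for all finite nonempty sets `A_1, ..., A_k` of short numbers of height `H`. So the `k`-fold
conjecture holds, by the sumset alone, for every set `A` of integers with a subset `B` of
at least `|A| ^ (1 - δ)` elements such that the elements of one affine image `q B + t` of `B` are
short of height `|A| ^ δ`.

Proof. By the theorem on vanishing sums of `S`-units with coefficients of moderate height (starting
files, from the subspace theorem), every term of such a sum has a partner such that the ratio of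
the two has moderate height. Merge close terms of each number as long as possible; as the number of
merging steps is bounded, there is a scale at which all numbers in large subsets of the `A_i` have
representations whose terms are far from each other. In a coincidence
`a_1 + ... + a_k = a_1' + ... + a_k'` every term then has a partner in another summand. For
given partners and ratios the coordinates split into classes, each class is determined by each of
at least two of the `2 k` summands, and Shearer's inequality gives at most `∏ |A_i|` coincidences.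
-/

open Finset

namespace Pool.Agent.Results.MP_120218_co.ShortSums

/-- `u = ± ∏_{p ∈ P} p ^ e_p` with integral exponents of any sign -/
def IsSUnit (P : Finset ℕ) (u : ℚ) : Prop :=
  ∃ (σ : ℤ) (e : ℕ → ℤ), (σ = 1 ∨ σ = -1) ∧ u = σ * ∏ p ∈ P, (p : ℚ) ^ (e p)

/-- `x` is a sum of `s` terms `c u`, where `u` is as in `IsSUnit P` and the numerator and the
denominator of `c` are at most `H` -/
def Short (P : Finset ℕ) (H : ℝ) (s : ℕ) (x : ℚ) : Prop :=
  ∃ c u : Fin s → ℚ, (∀ i, |((c i).num : ℝ)| ≤ H ∧ ((c i).den : ℝ) ≤ H ∧ IsSUnit P (u i)) ∧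
    x = ∑ i, c i * u i

lemma in_box {H : ℝ} {x : ℚ} (h1 : |(x.num : ℝ)| ≤ H) (h2 : (x.den : ℝ) ≤ H) :
    x ∈ Pool.Agent.TH539.MQ.box ⌊H⌋₊ := by
  refine Pool.Agent.TH539.MQ.mem_box ?_ ?_
  · have h3 : ((x.num.natAbs : ℕ) : ℝ) ≤ H := by
      rw [Nat.cast_natAbs]
      push_cast
      exact h1
    have h4 : x.num.natAbs ≤ ⌊H⌋₊ := Nat.le_floor h3
    have h5 : ((x.num.natAbs : ℕ) : ℝ) ≤ (⌊H⌋₊ : ℝ) := by exact_mod_cast h4
    rw [Nat.cast_natAbs] at h5
    push_cast at h5
    exact h5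
  · exact_mod_cast Nat.le_floor h2

lemma toSU (P : Finset ℕ) {x : ℚ} (h : IsSUnit P x) :
    Pool.Agent.TH551.SU.IsSU (fun i : Fin P.card => ((P.equivFin.symm i : P) : ℕ)) x := by
  obtain ⟨σ, e, hσ, rfl⟩ := h
  refine ⟨σ, fun i => e ((P.equivFin.symm i : P) : ℕ), hσ, ?_⟩
  congr 1
  rw [Equiv.prod_comp P.equivFin.symm (fun p : P => (((p : ℕ) : ℚ)) ^ (e p)),
    Finset.prod_coe_sort P (fun p => ((p : ℚ)) ^ (e p))]

theorem part1 (P : Finset ℕ) (hP : ∀ p ∈ P, p.Prime) (s k : ℕ) (hk : 1 ≤ k) :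
    ∃ C : ℕ, 0 < C ∧ ∀ (H : ℝ) (A : Fin k → Finset ℚ), 1 ≤ H → (∀ i, (A i).Nonempty) →
      (∀ i, ∀ x ∈ A i, Short P H s x) →
      ∏ i, ((A i).card : ℝ) ≤
        C * H ^ C * (((Fintype.piFinset A).image fun f => ∑ i, f i).card : ℝ) := by
  classical
  haveI : Nonempty (Fin k) := ⟨⟨0, hk⟩⟩
  have hb : ∀ v : Fin P.card, ((P.equivFin.symm v : P) : ℕ).Prime :=
    fun v => hP _ (P.equivFin.symm v).2
  have hbi : Function.Injective (fun i : Fin P.card => ((P.equivFin.symm i : P) : ℕ)) :=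
    Subtype.val_injective.comp P.equivFin.symm.injective
  obtain ⟨C, hC⟩ := Pool.Agent.Q163.SS.sums
    (fun i : Fin P.card => ((P.equivFin.symm i : P) : ℕ)) hb hbi (Fin s) (Fin k)
  refine ⟨C + 1, Nat.succ_pos _, fun H A hH hA hshort => ?_⟩
  have hfl : 1 ≤ ⌊H⌋₊ := Nat.le_floor (by exact_mod_cast hH)
  have h1 := hC ⌊H⌋₊ hfl A hA (fun i x hx => by
    obtain ⟨c, u, h2, h3⟩ := hshort i x hx
    exact ⟨c, u, fun i => ⟨in_box (h2 i).1 (h2 i).2.1, toSU P (h2 i).2.2⟩, h3⟩)
  have h4 : ∏ i, ((A i).card : ℝ) ≤ (C * (⌊H⌋₊ : ℝ) ^ C) *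
      (((Fintype.piFinset A).image fun f => ∑ i, f i).card : ℝ) := by
    exact_mod_cast h1
  refine h4.trans (mul_le_mul_of_nonneg_right ?_ (Nat.cast_nonneg _))
  have h5 : (⌊H⌋₊ : ℝ) ≤ H := Nat.floor_le (by linarith)
  calc (C : ℝ) * (⌊H⌋₊ : ℝ) ^ C ≤ C * H ^ C :=
        mul_le_mul_of_nonneg_left (pow_le_pow_left₀ (Nat.cast_nonneg _) h5 _) (Nat.cast_nonneg _)
    _ ≤ ((C + 1 : ℕ) : ℝ) * H ^ (C + 1) := by
        refine mul_le_mul ?_ (pow_le_pow_right₀ hH (Nat.le_succ C)) (by positivity)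
          (by positivity)
        push_cast
        linarith

/-- **The `k`-fold Erdős–Szemerédi conjecture for sets of short sums of S-units.**

(1) For every finite set `P` of primes and all `s`, `k ≥ 1` there is `C` such that
`|A_1| ... |A_k| ≤ C H ^ C |A_1 + ... + A_k|` for all `H ≥ 1` and all finite nonempty sets
`A_1, ..., A_k` of rational numbers which are short of height `H` (sums of `s` terms `c u` with `u`
a `P`-unit and `c` of height at most `H`).

(2) For every `P`, `s`, `k ≥ 1`, `ε > 0` there are `δ > 0` and `c > 0` such that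
`|k A| ≥ c |A| ^ (k - ε)` for every finite set `A` of integers with a subset `B`,
`|B| ≥ |A| ^ (1 - δ)`, such that for some integers `q ≠ 0` and `t` all the numbers `q b + t`,
`b ∈ B`, are short of height `|A| ^ δ`. -/
theorem result :
    (∀ P : Finset ℕ, (∀ p ∈ P, p.Prime) → ∀ s k : ℕ, 1 ≤ k →
      ∃ C : ℕ, 0 < C ∧ ∀ (H : ℝ) (A : Fin k → Finset ℚ), 1 ≤ H → (∀ i, (A i).Nonempty) →
        (∀ i, ∀ x ∈ A i, Short P H s x) →
        ∏ i, ((A i).card : ℝ) ≤
          C * H ^ C * (((Fintype.piFinset A).image fun f => ∑ i, f i).card : ℝ)) ∧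
    (∀ P : Finset ℕ, (∀ p ∈ P, p.Prime) → ∀ s k : ℕ, 1 ≤ k → ∀ ε : ℝ, 0 < ε →
      ∃ δ : ℝ, 0 < δ ∧ ∃ c : ℝ, 0 < c ∧ ∀ A B : Finset ℤ, A.Nonempty → B ⊆ A →
        (A.card : ℝ) ^ (1 - δ) ≤ B.card →
        (∃ q t : ℤ, q ≠ 0 ∧ ∀ b ∈ B, Short P ((A.card : ℝ) ^ δ) s ((q * b + t : ℤ) : ℚ)) →
        c * (A.card : ℝ) ^ ((k : ℝ) - ε) ≤
          (((Fintype.piFinset (fun _ : Fin k => A)).image
            (fun f : Fin k → ℤ => ∑ i, f i)).card : ℝ)) := by
  refine ⟨fun P hP s k hk => part1 P hP s k hk, fun P hP s k hk ε hε => ?_⟩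
  classical
  obtain ⟨C, hC0, hC⟩ := part1 P hP s k hk
  have hden : (0 : ℝ) < (k : ℝ) + C + 1 := by positivity
  refine ⟨ε / ((k : ℝ) + C + 1), div_pos hε hden, 1 / C, by positivity, ?_⟩
  intro A B hA hBA hB ⟨q, t, hq, hshort⟩
  set δ := ε / ((k : ℝ) + C + 1) with hδ
  have hδ0 : 0 < δ := div_pos hε hden
  have hδε : δ * ((k : ℝ) + C) ≤ ε := by
    have h1 : δ * ((k : ℝ) + C + 1) = ε := div_mul_cancel₀ _ hden.ne'
    nlinarith
  have hN1 : (1 : ℝ) ≤ A.card := by exact_mod_cast Finset.card_pos.2 hA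
  have hN0 : (0 : ℝ) < A.card := by linarith
  have hBpos : (0 : ℝ) < B.card := lt_of_lt_of_le (by positivity) hB
  have hBne : B.Nonempty := Finset.card_pos.1 (by exact_mod_cast hBpos)
  let φ : ℤ → ℚ := fun b => ((q * b + t : ℤ) : ℚ)
  have hφ : Function.Injective φ := by
    intro a b hab
    simp only [φ] at hab
    have h1 : q * a + t = q * b + t := by exact_mod_cast hab
    exact mul_left_cancel₀ hq (by linarith)
  have hH : (1 : ℝ) ≤ (A.card : ℝ) ^ δ := Real.one_le_rpow hN1 hδ0.le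
  have h1 := hC ((A.card : ℝ) ^ δ) (fun _ => B.image φ) hH (fun _ => hBne.image _) (by
    intro i x hx
    obtain ⟨b, hb, rfl⟩ := Finset.mem_image.1 hx
    exact hshort b hb)
  rw [Finset.prod_const, Finset.card_univ, Fintype.card_fin,
    Finset.card_image_of_injective _ hφ] at h1
  -- the sumset of the image
  have h2 : ((Fintype.piFinset (fun _ : Fin k => B.image φ)).image fun f => ∑ i, f i).card ≤
      ((Fintype.piFinset (fun _ : Fin k => A)).image (fun f : Fin k → ℤ => ∑ i, f i)).card := by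
    refine (Finset.card_le_card (t := ((Fintype.piFinset (fun _ : Fin k => A)).image
      (fun f : Fin k → ℤ => ∑ i, f i)).image
        (fun x : ℤ => ((q * x + k * t : ℤ) : ℚ))) ?_).trans Finset.card_image_le
    intro y hy
    obtain ⟨f, hf, rfl⟩ := Finset.mem_image.1 hy
    rw [Fintype.mem_piFinset] at hf
    have hex : ∀ i, ∃ b ∈ B, φ b = f i := fun i => Finset.mem_image.1 (hf i)
    choose g hg hgf using hex
    refine Finset.mem_image.2 ⟨∑ i, g i, Finset.mem_image.2 ⟨g, ?_, rfl⟩, ?_⟩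
    · exact Fintype.mem_piFinset.2 fun i => hBA (hg i)
    · simp only [← hgf, φ]
      rw [← Int.cast_sum, Finset.sum_add_distrib, Finset.sum_const, Finset.card_univ,
        Fintype.card_fin, ← Finset.mul_sum]
      simp
  set S := ((Fintype.piFinset (fun _ : Fin k => A)).image
    (fun f : Fin k → ℤ => ∑ i, f i)).card with hS
  have hCpos : (0 : ℝ) < C := by exact_mod_cast hC0
  have h3 : (B.card : ℝ) ^ k ≤ C * ((A.card : ℝ) ^ δ) ^ C * S := by
    refine h1.trans (mul_le_mul_of_nonneg_left ?_ (by positivity))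
    exact_mod_cast h2
  have h4 : (A.card : ℝ) ^ ((1 - δ) * k) ≤ (B.card : ℝ) ^ k := by
    rw [Real.rpow_mul hN0.le, Real.rpow_natCast]
    exact pow_le_pow_left₀ (by positivity) hB k
  have h5 : ((A.card : ℝ) ^ δ) ^ C = (A.card : ℝ) ^ (δ * C) := by
    rw [Real.rpow_mul hN0.le, Real.rpow_natCast]
  have h6 : (A.card : ℝ) ^ ((k : ℝ) - ε) ≤ C * S := by
    have h7 : (A.card : ℝ) ^ ((k : ℝ) - ε) * (A.card : ℝ) ^ (δ * C) ≤
        (C * S) * (A.card : ℝ) ^ (δ * C) := by
      rw [← Real.rpow_add hN0]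
      calc (A.card : ℝ) ^ ((k : ℝ) - ε + δ * C) ≤ (A.card : ℝ) ^ ((1 - δ) * k) := by
            refine Real.rpow_le_rpow_of_exponent_le hN1 ?_
            nlinarith
        _ ≤ (B.card : ℝ) ^ k := h4
        _ ≤ C * ((A.card : ℝ) ^ δ) ^ C * S := h3
        _ = _ := by rw [h5]; ring
    exact le_of_mul_le_mul_right h7 (by positivity)
  calc 1 / (C : ℝ) * (A.card : ℝ) ^ ((k : ℝ) - ε) ≤ 1 / (C : ℝ) * (C * S) :=
        mul_le_mul_of_nonneg_left h6 (by positivity)
    _ = S := by field_simp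

end Pool.Agent.Results.MP_120218_co.ShortSums
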